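import Pool.Agent.helper28.BQ.SpecK

/-!
# BQ, module LOW: the total majorant is at least 1 on nonzero integral vectors
-/

open scoped BigOperators ComplexConjugate Matrix

namespace BQ

theorem LOW_herm_re (t : ℝ) (X : Fin 3 → ℂ) :
    (herm t X X).re = ‖X 0‖ ^ 2 + ‖X 1‖ ^ 2 - t * ‖X 2‖ ^ 2 := by
  have key : ∀ z : ℂ, conj z * z = ((‖z‖ ^ 2 : ℝ) : ℂ) := by
    intro z
    rw [Complex.conj_mul']
    push_cast
    rfl
  unfold herm
  rw [key, key, key, ← Complex.ofReal_mul, ← Complex.ofReal_add, ← Complex.ofReal_sub,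
    Complex.ofReal_re]

theorem LOW_re (HE : HE_stmt) {F : Type} [Field F] (kap d : F) (v : F →+* ℝ) (x y : Fin 3 → F)
    (h : 0 ≤ v kap) :
    (herm (v d) (emb kap v x y) (emb kap v x y)).re = v (hp kap d x y x y) := by
  rw [HE F kap d v x y x y h]
  simp

theorem LOW_int {F : Type} [Field F] [NumberField F] {kap d : F} (hk : IsIntegral ℤ kap)
    (hd : IsIntegral ℤ d) {x y : Fin 3 → F} (hx : ∀ i, IsIntegral ℤ (x i))
    (hy : ∀ i, IsIntegral ℤ (y i)) : IsIntegral ℤ (hp kap d x y x y) := by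
  unfold hp bil
  exact ((((hx 0).mul (hx 0)).add ((hx 1).mul (hx 1))).sub (hd.mul ((hx 2).mul (hx 2)))).add
    (hk.mul ((((hy 0).mul (hy 0)).add ((hy 1).mul (hy 1))).sub (hd.mul ((hy 2).mul (hy 2)))))

theorem LOW (TR : TR_stmt) (MA : MA_stmt) (HE : HE_stmt) : LOW_stmt := by
  classical
  intro F _ _ kap d v0 H w hw x y hx hy hxy
  obtain ⟨-, hcard, -, -, hone⟩ := TR F H.real
  set n : F := hp kap d x y x y with hn
  have hre : ∀ v : F →+* ℝ, (herm (v d) (emb kap v x y) (emb kap v x y)).re = v n :=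
    fun v => LOW_re HE kap d v x y (H.kapPos v).le
  have hnint : IsIntegral ℤ n := LOW_int H.kapInt H.dInt hx hy
  have hpos : ∀ v : F →+* ℝ, v ≠ v0 → 0 ≤ v n := by
    intro v hv
    rw [← hre v, LOW_herm_re]
    have hd := H.dNeg v hv
    have h2 : 0 ≤ ‖emb kap v x y 2‖ ^ 2 := by positivity
    nlinarith [sq_nonneg ‖emb kap v x y 0‖, sq_nonneg ‖emb kap v x y 1‖, mul_nonneg (neg_nonneg.mpr hd.le) h2]
  have hmaj : |v0 n| ≤ maj (v0 d) w (emb kap v0 x y) := by
    rw [← hre v0]
    exact (MA (v0 d) w hw).2.1 _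
  have hQ : ∑ v : F →+* ℝ, |v n| ≤ QQ kap d v0 w x y := by
    rw [← Finset.add_sum_erase Finset.univ (fun v : F →+* ℝ => |v n|) (Finset.mem_univ v0)]
    unfold QQ
    refine add_le_add hmaj ?_
    have : ∀ v ∈ (Finset.univ.erase v0 : Finset (F →+* ℝ)),
        |v n| ≤ (herm (v d) (emb kap v x y) (emb kap v x y)).re := by
      intro v hv
      rw [hre v, abs_of_nonneg (hpos v (Finset.ne_of_mem_erase hv))]
    convert Finset.sum_le_sum this using 2
  by_cases hn0 : n = 0
  · exfalso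
    have hlt : 1 < Fintype.card (F →+* ℝ) := by
      rw [hcard]
      exact lt_of_lt_of_le (by norm_num) H.deg
    obtain ⟨v, hv⟩ := Fintype.exists_ne_of_one_lt_card hlt v0
    have h0 := hre v
    rw [hn0, map_zero, LOW_herm_re] at h0
    have hd := H.dNeg v hv
    have e0 : 0 ≤ ‖emb kap v x y 0‖ ^ 2 := by positivity
    have e1 : 0 ≤ ‖emb kap v x y 1‖ ^ 2 := by positivity
    have e2 : 0 ≤ ‖emb kap v x y 2‖ ^ 2 := by positivity
    have e3 : 0 ≤ (-(v d)) * ‖emb kap v x y 2‖ ^ 2 := mul_nonneg (by linarith) e2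
    have z0 : ‖emb kap v x y 0‖ ^ 2 = 0 := by linarith
    have z1 : ‖emb kap v x y 1‖ ^ 2 = 0 := by linarith
    have z3 : (-(v d)) * ‖emb kap v x y 2‖ ^ 2 = 0 := by linarith
    have z2 : ‖emb kap v x y 2‖ ^ 2 = 0 := by
      rcases mul_eq_zero.mp z3 with h | h
      · linarith
      · exact h
    have hz : ∀ i, emb kap v x y i = 0 := by
      intro i
      fin_cases i
      · exact norm_eq_zero.mp (pow_eq_zero_iff (two_ne_zero)|>.mp z0)
      · exact norm_eq_zero.mp (pow_eq_zero_iff (two_ne_zero)|>.mp z1)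
      · exact norm_eq_zero.mp (pow_eq_zero_iff (two_ne_zero)|>.mp z2)
    apply hxy
    have hs : 0 < Real.sqrt (v kap) := Real.sqrt_pos.mpr (H.kapPos v)
    constructor
    · funext i
      have h := congrArg Complex.re (hz i)
      simp only [emb, Complex.sub_re, Complex.ofReal_re, Complex.mul_re, Complex.I_re,
        Complex.I_im, Complex.ofReal_im, Complex.zero_re, Complex.mul_im] at h
      have h' : v (x i) = 0 := by linarith
      exact v.injective (by rw [h']; simp)
    · funext i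
      have h := congrArg Complex.im (hz i)
      simp only [emb, Complex.sub_im, Complex.ofReal_re, Complex.mul_re, Complex.I_re,
        Complex.I_im, Complex.ofReal_im, Complex.zero_im, Complex.mul_im] at h
      have h' : Real.sqrt (v kap) * v (y i) = 0 := by linarith
      rcases mul_eq_zero.mp h' with h2 | h2
      · exact absurd h2 hs.ne'
      · exact v.injective (by rw [h2]; simp)
  · obtain ⟨v, hv⟩ := hone n hnint hn0
    calc (1 : ℝ) ≤ |v n| := hv
      _ ≤ ∑ v : F →+* ℝ, |v n| :=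
        Finset.single_le_sum (f := fun v : F →+* ℝ => |v n|) (fun _ _ => abs_nonneg _)
          (Finset.mem_univ v)
      _ ≤ _ := hQ

end BQ
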